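import Pool.Agent.K3h35.GS.Stm

/-!
# Bounds for the logarithmic potential
-/

set_option autoImplicit false
open MeasureTheory Filter Topology Set Metric

namespace Pool.Agent.K3h3.GAH

open Pool.Agent.H314.Dir Pool.Agent.K3h35.GS

/-- a uniform bound for `sig` -/
theorem exists_sig_bound : ∃ M : ℝ, 0 ≤ M ∧ ∀ y : Eu 2, |sig y| ≤ M := by
  refine ⟨1 / (8 * cst 2), by have := cst_pos 2; positivity, fun y => ?_⟩
  rw [abs_of_nonneg (sig_nonneg y), sig]
  have h0 : (0 : ℝ) ≤ max 0 (1 - ‖y‖ ^ 2) := le_max_left _ _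
  have h1 : max 0 (1 - ‖y‖ ^ 2) ≤ 1 := max_le (by norm_num) (by nlinarith [sq_nonneg ‖y‖])
  have h2 : (max 0 (1 - ‖y‖ ^ 2)) ^ 4 ≤ 1 := pow_le_one₀ h0 h1
  have := cst_pos 2
  gcongr

/-- a Lipschitz bound for `sig` -/
theorem exists_sig_lip : ∃ L : ℝ, 0 ≤ L ∧ ∀ y z : Eu 2, |sig y - sig z| ≤ L * ‖y - z‖ := by
  obtain ⟨K, hK⟩ := ContDiff.lipschitzWith_of_hasCompactSupport (𝕂 := ℝ)
    (hasCompactSupport_sig (d := 2)) (contDiff_sig (d := 2)) (by norm_num)
  refine ⟨K, K.2, fun y z => ?_⟩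
  have := hK.dist_le_mul y z
  rwa [Real.dist_eq, dist_eq_norm] at this

variable {f : Eu 2 → ℝ} {C : ℝ}

theorem integrable_mul_sig (hf : Integrable f) (s : ℝ) (x : Eu 2) :
    Integrable (fun t => f t * sig (-(s⁻¹ • (x - t)))) := by
  obtain ⟨M, hM0, hM⟩ := exists_sig_bound
  refine hf.mul_bdd (c := M) ?_ ?_
  · exact ((contDiff_sig (d := 2)).continuous.comp (by fun_prop)).aestronglyMeasurable
  · exact Eventually.of_forall fun t => hM _

theorem J_eq {s : ℝ} (hs : 0 < s) (x : Eu 2) :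
    J sig f s x = (s ^ 2)⁻¹ * ∫ t, f t * sig (-(s⁻¹ • (x - t))) := by
  rw [J_eq_conv sig f hs x]
  simp [smul_eq_mul]

/-- decay of the averages -/
theorem abs_J_le {M : ℝ} (hM : ∀ y : Eu 2, |sig y| ≤ M) (hf : Integrable f) {s : ℝ} (hs : 0 < s)
    (x : Eu 2) : |J sig f s x| ≤ (s ^ 2)⁻¹ * (M * ∫ y, |f y|) := by
  rw [J_eq hs, abs_mul, abs_of_pos (by positivity : 0 < (s ^ 2)⁻¹)]
  refine mul_le_mul_of_nonneg_left ?_ (by positivity)
  rw [← integral_const_mul]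
  rw [← Real.norm_eq_abs]
  refine norm_integral_le_of_norm_le (hf.abs.const_mul M) (Eventually.of_forall fun t => ?_)
  rw [Real.norm_eq_abs, abs_mul, mul_comm]
  exact mul_le_mul_of_nonneg_right (hM _) (abs_nonneg _)

/-- Lipschitz bound of the averages -/
theorem abs_J_sub_le {L : ℝ} (hL : ∀ y z : Eu 2, |sig y - sig z| ≤ L * ‖y - z‖)
    (hf : Integrable f) {s : ℝ} (hs : 0 < s) (x y : Eu 2) :
    |J sig f s x - J sig f s y| ≤ (s ^ 2)⁻¹ * (s⁻¹ * ‖x - y‖ * (L * ∫ y, |f y|)) := by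
  rw [J_eq hs, J_eq hs, ← mul_sub, abs_mul, abs_of_pos (by positivity : 0 < (s ^ 2)⁻¹)]
  refine mul_le_mul_of_nonneg_left ?_ (by positivity)
  rw [← integral_sub (integrable_mul_sig hf s x) (integrable_mul_sig hf s y),
    ← integral_const_mul, ← integral_const_mul]
  rw [← Real.norm_eq_abs]
  refine norm_integral_le_of_norm_le ((hf.abs.const_mul L).const_mul _)
    (Eventually.of_forall fun t => ?_)
  rw [← mul_sub, Real.norm_eq_abs, abs_mul]
  have h1 := hL (-(s⁻¹ • (x - t))) (-(s⁻¹ • (y - t)))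
  have h2 : -(s⁻¹ • (x - t)) - -(s⁻¹ • (y - t)) = -(s⁻¹ • (x - y)) := by
    rw [smul_sub, smul_sub, smul_sub]; abel
  rw [h2, norm_neg, norm_smul, Real.norm_eq_abs, abs_of_pos (by positivity : 0 < s⁻¹)] at h1
  calc |f t| * |sig (-(s⁻¹ • (x - t))) - sig (-(s⁻¹ • (y - t)))|
      ≤ |f t| * (L * (s⁻¹ * ‖x - y‖)) := mul_le_mul_of_nonneg_left h1 (abs_nonneg _)
    _ = s⁻¹ * ‖x - y‖ * (L * |f t|) := by ring

/-- the integrand of the far part -/
noncomputable def gg (f : Eu 2 → ℝ) (x y : Eu 2) (s : ℝ) : ℝ := s * (J sig f s x - J sig f s y)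

theorem abs_gg_le {L : ℝ} (hL : ∀ y z : Eu 2, |sig y - sig z| ≤ L * ‖y - z‖)
    (hf : Integrable f) {s : ℝ} (hs : 0 < s) (x y : Eu 2) :
    |gg f x y s| ≤ (L * (∫ y, |f y|) * ‖x - y‖) * (s ^ 2)⁻¹ := by
  have h := abs_J_sub_le hL hf hs x y
  rw [gg, abs_mul, abs_of_pos hs]
  calc s * |J sig f s x - J sig f s y|
      ≤ s * ((s ^ 2)⁻¹ * (s⁻¹ * ‖x - y‖ * (L * ∫ y, |f y|))) :=
        mul_le_mul_of_nonneg_left h hs.le
    _ = (s * s⁻¹) * ((L * (∫ y, |f y|) * ‖x - y‖) * (s ^ 2)⁻¹) := by ring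
    _ = (L * (∫ y, |f y|) * ‖x - y‖) * (s ^ 2)⁻¹ := by
        rw [mul_inv_cancel₀ hs.ne', one_mul]

theorem abs_gg_le' {M : ℝ} (hM : ∀ y : Eu 2, |sig y| ≤ M) (hf : Integrable f) {s : ℝ}
    (hs : 0 < s) (x y : Eu 2) : |gg f x y s| ≤ (2 * M * (∫ y, |f y|)) * s⁻¹ := by
  have h1 := abs_J_le hM hf hs x
  have h2 := abs_J_le hM hf hs y
  have h3 : |J sig f s x - J sig f s y| ≤ (s ^ 2)⁻¹ * (2 * (M * ∫ y, |f y|)) := by
    refine (abs_sub _ _).trans ?_
    linarith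
  rw [gg, abs_mul, abs_of_pos hs]
  calc s * |J sig f s x - J sig f s y| ≤ s * ((s ^ 2)⁻¹ * (2 * (M * ∫ y, |f y|))) :=
        mul_le_mul_of_nonneg_left h3 hs.le
    _ = (s * s⁻¹) * ((2 * M * ∫ y, |f y|) * s⁻¹) := by
        rw [sq, mul_inv]; ring
    _ = (2 * M * ∫ y, |f y|) * s⁻¹ := by rw [mul_inv_cancel₀ hs.ne', one_mul]

theorem integrableOn_inv_sq {c : ℝ} (hc : 0 < c) :
    IntegrableOn (fun s : ℝ => (s ^ 2)⁻¹) (Ioi c) := by
  have h := integrableOn_Ioi_rpow_of_lt (a := -2) (by norm_num) hc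
  refine h.congr_fun (fun s hs => ?_) measurableSet_Ioi
  have : 0 < s := hc.trans hs
  simp only
  rw [Real.rpow_neg this.le, Real.rpow_ofNat]

theorem integral_inv_sq {c : ℝ} (hc : 0 < c) : ∫ s in Ioi c, (s ^ 2)⁻¹ = c⁻¹ := by
  have h := integral_Ioi_rpow_of_lt (a := -2) (by norm_num) hc
  have e : ∫ s in Ioi c, (s ^ 2)⁻¹ = ∫ s in Ioi c, s ^ (-2 : ℝ) := by
    refine setIntegral_congr_fun measurableSet_Ioi (fun s hs => ?_)
    have : 0 < s := hc.trans hs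
    rw [Real.rpow_neg this.le, Real.rpow_ofNat]
  rw [e, h]
  norm_num
  rw [Real.rpow_neg hc.le, Real.rpow_one]

theorem stronglyMeasurable_gg (hb : BM f C) (x y : Eu 2) : StronglyMeasurable (gg f x y) := by
  have h1 := stronglyMeasurable_J (κ := (sig : Eu 2 → ℝ)) contDiff_sig.continuous hb.meas x
  have h2 := stronglyMeasurable_J (κ := (sig : Eu 2 → ℝ)) contDiff_sig.continuous hb.meas y
  exact stronglyMeasurable_id.mul (h1.sub h2)

/-- integrability of the far part -/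
theorem integrableOn_gg (hb : BM f C) (hf : Integrable f) (x y : Eu 2) {c : ℝ} (hc : 0 < c) :
    IntegrableOn (gg f x y) (Ioi c) := by
  obtain ⟨L, hL0, hL⟩ := exists_sig_lip
  refine Integrable.mono' ((integrableOn_inv_sq hc).const_mul (L * (∫ y, |f y|) * ‖x - y‖))
    (stronglyMeasurable_gg hb x y).aestronglyMeasurable ?_
  refine (ae_restrict_iff' measurableSet_Ioi).2 (Eventually.of_forall fun s hs => ?_)
  exact abs_gg_le hL hf (hc.trans hs) x y

theorem abs_integral_gg_le {L : ℝ} (hL : ∀ y z : Eu 2, |sig y - sig z| ≤ L * ‖y - z‖)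
    (hf : Integrable f) (x y : Eu 2) {c : ℝ} (hc : 0 < c) :
    |∫ s in Ioi c, gg f x y s| ≤ (L * (∫ y, |f y|) * ‖x - y‖) * c⁻¹ := by
  rw [← integral_inv_sq hc, ← integral_const_mul, ← Real.norm_eq_abs]
  refine norm_integral_le_of_norm_le ((integrableOn_inv_sq hc).const_mul _) ?_
  refine (ae_restrict_iff' measurableSet_Ioi).2 (Eventually.of_forall fun s hs => ?_)
  exact abs_gg_le hL hf (hc.trans hs) x y

theorem abs_intervalIntegral_gg_le {M : ℝ} (hM : ∀ y : Eu 2, |sig y| ≤ M)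
    (hf : Integrable f) (x y : Eu 2) {R : ℝ} (hR : 1 ≤ R) :
    |∫ s in (1 : ℝ)..R, gg f x y s| ≤ (2 * M * (∫ y, |f y|)) * Real.log R := by
  have h1 : ∫ s in (1 : ℝ)..R, s⁻¹ = Real.log R := by
    rw [integral_inv_of_pos one_pos (by linarith), div_one]
  rw [← h1, ← intervalIntegral.integral_const_mul, ← Real.norm_eq_abs]
  refine intervalIntegral.norm_integral_le_of_norm_le hR ?_ ?_
  · refine Eventually.of_forall fun s hs => ?_
    exact abs_gg_le' hM hf (by linarith [hs.1]) x y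
  · refine (ContinuousOn.intervalIntegrable ?_).const_mul _
    refine continuousOn_inv₀.mono fun s hs => ?_
    rw [uIcc_of_le hR] at hs
    have : (0 : ℝ) < s := by linarith [hs.1]
    exact this.ne'

theorem abs_far_le {M L : ℝ} (hM : ∀ y : Eu 2, |sig y| ≤ M)
    (hL0 : 0 ≤ L) (hL : ∀ y z : Eu 2, |sig y - sig z| ≤ L * ‖y - z‖) (hb : BM f C)
    (hf : Integrable f) (x : Eu 2) :
    |∫ s in Ioi (1 : ℝ), gg f x 0 s| ≤
      (2 * M * (∫ y, |f y|)) * Real.log (1 + ‖x‖) + L * (∫ y, |f y|) := by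
  have hF : 0 ≤ ∫ y, |f y| := integral_nonneg fun _ => abs_nonneg _
  have hx := norm_nonneg x
  have hR : (1 : ℝ) ≤ 1 + ‖x‖ := by linarith
  rw [← intervalIntegral.integral_interval_add_Ioi (b := 1 + ‖x‖)
    (integrableOn_gg hb hf x 0 one_pos) (integrableOn_gg hb hf x 0 (by linarith))]
  refine (abs_add_le _ _).trans (add_le_add (abs_intervalIntegral_gg_le hM hf x 0 hR) ?_)
  refine (abs_integral_gg_le hL hf x 0 (by linarith : 0 < 1 + ‖x‖)).trans ?_
  rw [sub_zero, mul_assoc]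
  refine mul_le_of_le_one_right (mul_nonneg hL0 hF) ?_
  rw [← div_eq_mul_inv, div_le_one (by linarith)]
  linarith

theorem log_one_add_le {X : ℝ} (hX : 0 ≤ X) : Real.log (1 + X) ≤ 1 + Real.log (1 + X ^ 2) := by
  have h1 : (1 + X) ^ 2 ≤ 2 * (1 + X ^ 2) := by nlinarith [sq_nonneg (1 - X)]
  have h2 := Real.log_le_log (by positivity) h1
  rw [Real.log_pow, Real.log_mul (by norm_num) (by positivity)] at h2
  have h3 : Real.log 2 ≤ 1 := by
    have := Real.log_le_sub_one_of_pos (by norm_num : (0 : ℝ) < 2)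
    linarith
  have h4 : 0 ≤ Real.log (1 + X ^ 2) := Real.log_nonneg (by nlinarith [sq_nonneg X])
  push_cast at h2
  linarith

/-- bound of the near part -/
theorem abs_Npot_le (hb : BM f C) (x : Eu 2) :
    |Npot 0 1 f x| ≤ C * ∫ y : Eu 2, ‖sig y‖ := by
  have hC : 0 ≤ C := (abs_nonneg _).trans (hb.bd 0)
  have hK : 0 ≤ ∫ y : Eu 2, ‖sig y‖ := integral_nonneg fun _ => norm_nonneg _
  rw [Npot, Pw, ← Real.norm_eq_abs]
  have h := intervalIntegral.norm_integral_le_of_norm_le_const (a := 0) (b := 1)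
    (f := fun s : ℝ => ((1 - 0 * s ^ 2) * s) • J (sig : Eu 2 → ℝ) f s x)
    (C := C * ∫ y : Eu 2, ‖sig y‖) (fun s hs => ?_)
  · simpa using h
  · rw [uIoc_of_le zero_le_one] at hs
    rw [norm_smul, zero_mul, sub_zero, one_mul, Real.norm_eq_abs, abs_of_pos hs.1]
    have h2 := hb.norm_J_le (integrable_sig (d := 2)) s x
    exact (mul_le_of_le_one_left (norm_nonneg _) hs.2).trans h2

theorem abs_Npot_sub_le (hb : BM f C) (x y : Eu 2) :
    |Npot 0 1 f x - Npot 0 1 f y| ≤ (C * ∫ y : Eu 2, ‖fderiv ℝ sig y‖) * ‖x - y‖ := by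
  have h3 : ContDiff ℝ 3 (sig : Eu 2 → ℝ) := contDiff_sig
  have h1 : ContDiff ℝ 1 (sig : Eu 2 → ℝ) := h3.of_le (by norm_num)
  have hi : Integrable (fderiv ℝ (sig : Eu 2 → ℝ)) :=
    (h1.continuous_fderiv one_ne_zero).integrable_of_hasCompactSupport
      ((hasCompactSupport_sig).fderiv (𝕜 := ℝ))
  have hw : Continuous (fun s : ℝ => 1 - 0 * s ^ 2) := by fun_prop
  have hd : ∀ z, HasFDerivAt (Npot 0 1 f)
      (-(Pw (fderiv ℝ (sig : Eu 2 → ℝ)) (fun s : ℝ => 1 - 0 * s ^ 2) 1 f z)) z := fun z =>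
    hasFDerivAt_Pw h1 hasCompactSupport_sig hb hw one_pos z
  have key := convex_univ.norm_image_sub_le_of_norm_hasFDerivWithin_le
    (f := Npot 0 1 f) (C := C * ∫ y : Eu 2, ‖fderiv ℝ sig y‖) (s := univ) (x := y) (y := x)
    (fun z _ => (hd z).hasFDerivWithinAt) (fun z _ => ?_) (mem_univ _) (mem_univ _)
  · rwa [Real.norm_eq_abs] at key
  · rw [norm_neg, Pw]
    have h := intervalIntegral.norm_integral_le_of_norm_le_const (a := 0) (b := 1)
      (f := fun s : ℝ => (1 - 0 * s ^ 2) • J (fderiv ℝ (sig : Eu 2 → ℝ)) f s z)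
      (C := C * ∫ y : Eu 2, ‖fderiv ℝ sig y‖) (fun s hs => ?_)
    · simpa using h
    · rw [zero_mul, sub_zero, one_smul]
      exact hb.norm_J_le hi s z

theorem Tp_eq (f : Eu 2 → ℝ) (x : Eu 2) :
    Tp f x = (Npot 0 1 f 0 - Npot 0 1 f x) - ∫ s in Ioi (1 : ℝ), gg f x 0 s := rfl

theorem Tp_sub (hb : BM f C) (hf : Integrable f) (x y : Eu 2) :
    Tp f x - Tp f y = (Npot 0 1 f y - Npot 0 1 f x) - ∫ s in Ioi (1 : ℝ), gg f x y s := by
  rw [Tp_eq, Tp_eq]
  have h : ∫ s in Ioi (1 : ℝ), gg f x y s =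
      (∫ s in Ioi (1 : ℝ), gg f x 0 s) - ∫ s in Ioi (1 : ℝ), gg f y 0 s := by
    rw [← integral_sub (integrableOn_gg hb hf x 0 one_pos) (integrableOn_gg hb hf y 0 one_pos)]
    congr 1
    funext s
    simp only [gg]
    ring
  rw [h]
  ring

theorem t_T1 : St_T1 := by
  obtain ⟨M, hM0, hM⟩ := exists_sig_bound
  obtain ⟨L, hL0, hL⟩ := exists_sig_lip
  set K0 := ∫ y : Eu 2, ‖sig y‖ with hK0
  set K1 := ∫ y : Eu 2, ‖fderiv ℝ sig y‖ with hK1
  have hK0' : 0 ≤ K0 := integral_nonneg fun _ => norm_nonneg _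
  have hK1' : 0 ≤ K1 := integral_nonneg fun _ => norm_nonneg _
  refine ⟨2 * K0 + 2 * M + L + K1 + 1, by positivity, fun f C hb hf => ?_⟩
  have hC : 0 ≤ C := (abs_nonneg _).trans (hb.bd 0)
  have hF : 0 ≤ ∫ y, |f y| := integral_nonneg fun _ => abs_nonneg _
  set F := ∫ y, |f y| with hFdef
  constructor
  · intro x
    have a1 := abs_Npot_le hb 0
    have a2 := abs_Npot_le hb x
    have a3 := abs_far_le hM hL0 hL hb hf x
    have a4 := log_one_add_le (norm_nonneg x)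
    have a5 : 0 ≤ Real.log (1 + ‖x‖ ^ 2) := Real.log_nonneg (by nlinarith [sq_nonneg ‖x‖])
    rw [← hK0] at a1 a2
    rw [← hFdef] at a3
    set ℓ := Real.log (1 + ‖x‖ ^ 2) with hℓ
    have a6 : |Tp f x| ≤ C * K0 + C * K0 + (2 * M * F * Real.log (1 + ‖x‖) + L * F) := by
      rw [Tp_eq]
      refine (abs_sub _ _).trans (add_le_add ((abs_sub _ _).trans (add_le_add a1 a2)) a3)
    have a7 : 2 * M * F * Real.log (1 + ‖x‖) ≤ 2 * M * F * (1 + ℓ) :=
      mul_le_mul_of_nonneg_left a4 (by positivity)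
    have p1 : 0 ≤ C * K0 * ℓ := by positivity
    have p2 : 0 ≤ L * F * ℓ := by positivity
    have p3 : 0 ≤ F * (2 * K0 + K1 + 1) * (1 + ℓ) := by positivity
    have p4 : 0 ≤ C * (2 * M + L + K1 + 1) * (1 + ℓ) := by positivity
    nlinarith [p1, p2, p3, p4, a6, a7]
  · intro x y
    have a1 := abs_Npot_sub_le hb y x
    have a2 := abs_integral_gg_le hL hf x y one_pos
    rw [← hK1, norm_sub_rev y x] at a1
    rw [inv_one, mul_one] at a2
    rw [Tp_sub hb hf]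
    have a3 := (abs_sub (Npot 0 1 f y - Npot 0 1 f x) (∫ s in Ioi (1 : ℝ), gg f x y s)).trans
      (add_le_add a1 a2)
    refine a3.trans ?_
    rw [← hFdef]
    have p0 := norm_nonneg (x - y)
    set X := ‖x - y‖
    have p1 : 0 ≤ C * (2 * K0 + 2 * M + L + 1) * X := by positivity
    have p2 : 0 ≤ F * (2 * K0 + 2 * M + K1 + 1) * X := by positivity
    nlinarith [p1, p2]

theorem J_lin {g : Eu 2 → ℝ} {D : ℝ} (hb : BM f C) (hg : BM g D) (r s : ℝ) (x : Eu 2) :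
    J (sig : Eu 2 → ℝ) (fun y => f y + r * g y) s x = J sig f s x + r * J sig g s x := by
  have i1 := hb.integrable_smul (integrable_sig (d := 2)) s x
  have i2 := hg.integrable_smul (integrable_sig (d := 2)) s x
  rw [J, J, J, ← integral_const_mul, ← integral_add i1 (i2.const_mul r)]
  congr 1
  funext y
  simp only [smul_eq_mul]
  ring

theorem Npot_lin {g : Eu 2 → ℝ} {D : ℝ} (hb : BM f C) (hg : BM g D) (r : ℝ) (x : Eu 2) :
    Npot 0 1 (fun y => f y + r * g y) x = Npot 0 1 f x + r * Npot 0 1 g x := by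
  have hw : Continuous (fun s : ℝ => (1 - 0 * s ^ 2) * s) := by fun_prop
  have i1 := hb.intervalIntegrable (κ := (sig : Eu 2 → ℝ)) contDiff_sig.continuous
    hasCompactSupport_sig hw 0 1 x
  have i2 := hg.intervalIntegrable (κ := (sig : Eu 2 → ℝ)) contDiff_sig.continuous
    hasCompactSupport_sig hw 0 1 x
  rw [Npot, Npot, Npot, Pw, Pw, Pw, ← intervalIntegral.integral_const_mul,
    ← intervalIntegral.integral_add i1 (i2.const_mul r)]
  congr 1
  funext s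
  rw [J_lin hb hg]
  simp only [smul_eq_mul]
  ring

theorem t_T2 : St_T2 := by
  intro f g C D r hb hf hg hgi x
  rw [Tp_eq, Tp_eq, Tp_eq, Npot_lin hb hg, Npot_lin hb hg]
  have h : ∫ s in Ioi (1 : ℝ), gg (fun y => f y + r * g y) x 0 s =
      (∫ s in Ioi (1 : ℝ), gg f x 0 s) + r * ∫ s in Ioi (1 : ℝ), gg g x 0 s := by
    rw [← integral_const_mul, ← integral_add (integrableOn_gg hb hf x 0 one_pos)
      ((integrableOn_gg hg hgi x 0 one_pos).const_mul r)]
    congr 1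
    funext s
    simp only [gg]
    rw [J_lin hb hg, J_lin hb hg]
    ring
  rw [h]
  ring

end Pool.Agent.K3h3.GAH
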