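import Pool.Agent.K3h35.GS.Stm

/-!
# The Laplacian in logarithmic polar coordinates
-/

set_option autoImplicit false
open MeasureTheory Filter Topology Set Metric

namespace Pool.Agent.K3h3.GAH

open Pool.Agent.H314.Dir Pool.Agent.K3h35.GS

/-- the rotated point -/
noncomputable def pol' (t h : ℝ) : Eu 2 :=
  !₂[-(Real.exp t * Real.sin h), Real.exp t * Real.cos h]

theorem hasDerivAt_eu {f : ℝ → Eu 2} {f' : Eu 2} {t : ℝ}
    (h : ∀ i, HasDerivAt (fun τ => f τ i) (f' i) t) : HasDerivAt f f' t := by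
  have a : HasDerivAt (fun τ => (PiLp.continuousLinearEquiv 2 ℝ (fun _ : Fin 2 => ℝ)) (f τ))
      ((PiLp.continuousLinearEquiv 2 ℝ (fun _ : Fin 2 => ℝ)) f') t := hasDerivAt_pi.2 h
  have b := ((PiLp.continuousLinearEquiv 2 ℝ
    (fun _ : Fin 2 => ℝ)).symm.hasFDerivAt (x := _)).comp_hasDerivAt t a
  simpa [Function.comp_def] using b

theorem hasDerivAt_pol_t (t h : ℝ) : HasDerivAt (fun τ => pol τ h) (pol t h) t := by
  refine hasDerivAt_eu fun i => ?_
  fin_cases i
  · simpa [pol] using (Real.hasDerivAt_exp t).mul_const (Real.cos h)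
  · simpa [pol] using (Real.hasDerivAt_exp t).mul_const (Real.sin h)

theorem hasDerivAt_pol_h (t h : ℝ) : HasDerivAt (fun ϑ => pol t ϑ) (pol' t h) h := by
  refine hasDerivAt_eu fun i => ?_
  fin_cases i
  · simpa [pol, pol'] using (Real.hasDerivAt_cos h).const_mul (Real.exp t)
  · simpa [pol, pol'] using (Real.hasDerivAt_sin h).const_mul (Real.exp t)

theorem hasDerivAt_pol'_h (t h : ℝ) : HasDerivAt (fun ϑ => pol' t ϑ) (-(pol t h)) h := by
  refine hasDerivAt_eu fun i => ?_
  fin_cases i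
  · have a : HasDerivAt (fun τ => -(Real.exp t * Real.sin τ)) (-(Real.exp t * Real.cos h)) h :=
      ((Real.hasDerivAt_sin h).const_mul (Real.exp t)).neg
    simpa [pol, pol'] using a
  · simpa [pol, pol'] using (Real.hasDerivAt_cos h).const_mul (Real.exp t)

theorem t_K1 : St_K1 := by
  intro φ hφ
  have hD : ContDiff ℝ 1 (fderiv ℝ φ) := hφ.fderiv_right (by norm_num)
  have h1 : ∀ x, HasFDerivAt φ (fderiv ℝ φ x) x := fun x =>
    (hφ.differentiable (by norm_num) x).hasFDerivAt
  have h2 : ∀ x, HasFDerivAt (fderiv ℝ φ) (fderiv ℝ (fderiv ℝ φ) x) x := fun x =>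
    (hD.differentiable (by norm_num) x).hasFDerivAt
  refine ⟨fun t h => fderiv ℝ φ (pol t h) (pol t h),
    fun t h => fderiv ℝ (fderiv ℝ φ) (pol t h) (pol t h) (pol t h) +
      fderiv ℝ φ (pol t h) (pol t h),
    fun t h => fderiv ℝ φ (pol t h) (pol' t h),
    fun t h => fderiv ℝ (fderiv ℝ φ) (pol t h) (pol' t h) (pol' t h) +
      fderiv ℝ φ (pol t h) (-(pol t h)), ?_, ?_, ?_, ?_, ?_⟩
  · intro t h
    exact (h1 (pol t h)).comp_hasDerivAt t (hasDerivAt_pol_t t h)
  · intro t h
    have a := (h2 (pol t h)).comp_hasDerivAt t (hasDerivAt_pol_t t h)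
    have b := a.clm_apply (hasDerivAt_pol_t t h)
    exact b
  · intro t h
    exact (h1 (pol t h)).comp_hasDerivAt h (hasDerivAt_pol_h t h)
  · intro t h
    have a := (h2 (pol t h)).comp_hasDerivAt h (hasDerivAt_pol_h t h)
    have b := a.clm_apply (hasDerivAt_pol'_h t h)
    exact b
  · intro t h
    set B := fderiv ℝ (fderiv ℝ φ) (pol t h) with hB
    set e0 : Eu 2 := EuclideanSpace.single 0 (1 : ℝ) with he0
    set e1 : Eu 2 := EuclideanSpace.single 1 (1 : ℝ) with he1
    have x1 : pol t h = (Real.exp t * Real.cos h) • e0 + (Real.exp t * Real.sin h) • e1 := by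
      ext i
      fin_cases i <;> simp [pol, he0, he1]
    have x2 : pol' t h = (-(Real.exp t * Real.sin h)) • e0 + (Real.exp t * Real.cos h) • e1 := by
      ext i
      fin_cases i <;> simp [pol', he0, he1]
    have hl : lap φ (pol t h) = B e0 e0 + B e1 e1 := by
      rw [lap, Fin.sum_univ_two, iteratedFDeriv_two_apply, iteratedFDeriv_two_apply]
    have hexp : Real.exp (2 * t) = Real.exp t * Real.exp t := by
      rw [← Real.exp_add]; ring_nf
    have hcs := Real.sin_sq_add_cos_sq h
    have s1 : B (pol t h) (pol t h) = (Real.exp t * Real.cos h) ^ 2 * B e0 e0 +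
        (Real.exp t * Real.cos h) * (Real.exp t * Real.sin h) * (B e0 e1 + B e1 e0) +
        (Real.exp t * Real.sin h) ^ 2 * B e1 e1 := by
      rw [x1]
      simp only [map_add, map_smul, add_apply, smul_apply, smul_eq_mul]
      ring
    have s2 : B (pol' t h) (pol' t h) = (Real.exp t * Real.sin h) ^ 2 * B e0 e0 -
        (Real.exp t * Real.cos h) * (Real.exp t * Real.sin h) * (B e0 e1 + B e1 e0) +
        (Real.exp t * Real.cos h) ^ 2 * B e1 e1 := by
      rw [x2]
      simp only [map_add, map_smul, add_apply, smul_apply, smul_eq_mul]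
      ring
    simp only [← hB]
    rw [hl, s1, s2, map_neg, hexp]
    linear_combination (Real.exp t * Real.exp t * (B e0 e0 + B e1 e1)) * hcs

end Pool.Agent.K3h3.GAH
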